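import Pool.Agent.helper62.LL.SpecG
import Pool.Agent.helper62.EN.XFL
import Pool.Agent.helper72.EN.XTX
import Pool.Agent.helper11.EN.XTM

/-! Row ll:EN2: the energy estimate on the surface -/

set_option autoImplicit false

open scoped MatrixGroups ContDiff Topology UpperHalfPlane ENNReal
open UpperHalfPlane MeasureTheory Filter Set

namespace Pool.Agent.LL

open Pool.Agent.EN (XG MG mkX mkM fl pr)

theorem EN2_mem (Γ : Subgroup SL(2, ℝ)) (ρ : ℝ) (x y : XG Γ) :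
    (pr Γ x, pr Γ y) ∈ DM Γ ρ ↔ DX Γ ρ x y := by
  obtain ⟨-, -, -, -, hsX, -, -, -, -, hpr, heX, heM⟩ := EN.XFL_proof Γ
  constructor
  · rintro ⟨z, z', h1, h2, h3⟩
    obtain ⟨g, rfl⟩ := hsX x
    obtain ⟨g', rfl⟩ := hsX y
    change pr Γ (mkX Γ g) = mkM Γ z at h1
    change pr Γ (mkX Γ g') = mkM Γ z' at h2
    rw [hpr] at h1 h2
    obtain ⟨γ, hγ⟩ := (heM _ _).1 h1
    obtain ⟨γ', hγ'⟩ := (heM _ _).1 h2
    refine ⟨(γ : SL(2, ℝ)) * g, (γ' : SL(2, ℝ)) * g', (heX _ _).2 ⟨γ, rfl⟩, (heX _ _).2 ⟨γ', rfl⟩, ?_⟩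
    rw [mul_smul, mul_smul]
    change dist (γ • (g • I)) (γ' • (g' • I)) < ρ
    rw [hγ, hγ']
    exact h3
  · rintro ⟨g, g', rfl, rfl, h⟩
    exact ⟨g • I, g' • I, hpr g, hpr g', h⟩

theorem EN2_openX (Γ : Subgroup SL(2, ℝ)) (ρ : ℝ) : IsOpen {p : XG Γ × XG Γ | DX Γ ρ p.1 p.2} := by
  obtain ⟨-, -, -, hoX, -⟩ := EN.XFL_proof Γ
  have h : {p : XG Γ × XG Γ | DX Γ ρ p.1 p.2} =
      Prod.map (mkX Γ) (mkX Γ) '' {q : SL(2, ℝ) × SL(2, ℝ) | dist (q.1 • I) (q.2 • I) < ρ} := by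
    ext ⟨x, y⟩
    constructor
    · rintro ⟨g, g', h1, h2, h3⟩
      exact ⟨(g, g'), h3, Prod.ext h1.symm h2.symm⟩
    · rintro ⟨⟨g, g'⟩, h3, h4⟩
      rw [Prod.ext_iff] at h4
      exact ⟨g, g', h4.1.symm, h4.2.symm, h3⟩
  rw [h]
  refine (hoX.prodMap hoX) _ ?_
  have hc : Continuous (fun q : SL(2, ℝ) × SL(2, ℝ) => dist (q.1 • I) (q.2 • I)) := by
    fun_prop
  exact isOpen_lt hc continuous_const

theorem EN2_openM (Γ : Subgroup SL(2, ℝ)) (ρ : ℝ) : IsOpen (DM Γ ρ) := by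
  obtain ⟨-, -, -, -, -, -, hoM, -⟩ := EN.XFL_proof Γ
  have h : DM Γ ρ = Prod.map (mkM Γ) (mkM Γ) '' {q : ℍ × ℍ | dist q.1 q.2 < ρ} := by
    ext ⟨x, y⟩
    constructor
    · rintro ⟨g, g', h1, h2, h3⟩
      exact ⟨(g, g'), h3, Prod.ext h1.symm h2.symm⟩
    · rintro ⟨⟨g, g'⟩, h3, h4⟩
      rw [Prod.ext_iff] at h4
      exact ⟨g, g', h4.1.symm, h4.2.symm, h3⟩
  rw [h]
  refine (hoM.prodMap hoM) _ ?_
  exact isOpen_lt continuous_dist continuous_const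

theorem EN2_vol : (volume : Measure (ℝ × ℝ)) Sq = ENNReal.ofReal (1 / 16) := by
  unfold Sq
  rw [Measure.volume_eq_prod, Measure.prod_prod, Real.volume_Icc, ← ENNReal.ofReal_mul (by norm_num)]
  norm_num

theorem EN2_core {X : Type} [TopologicalSpace X] [SecondCountableTopology X] [MeasurableSpace X] [BorelSpace X]
    (F : ℝ → X → X) (hF : Continuous fun q : ℝ × X => F q.1 q.2) (μ : Measure X) [IsProbabilityMeasure μ]
    (hinv : ∀ t, μ.map (F t) = μ) (f : X → ℝ≥0∞) (hfm : Measurable f) (hf1 : ∀ x, f x ≤ 1)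
    (hffl : ∀ t x, f (F t x) ≤ ENNReal.ofReal (Real.exp (2 * |t|)) * f x) (A : Set (X × X)) (hAm : MeasurableSet A)
    (K : ℝ≥0∞) (hK : ∀ x, ∫⁻ y, volume {u : ℝ × ℝ | u ∈ Sq ∧ (F u.1 x, F u.2 y) ∈ A} ∂(μ.withDensity f) ≤ K) :
    ((μ.withDensity f).prod (μ.withDensity f)) A ≤ ENNReal.ofReal 16 * (ENNReal.ofReal (Real.exp 1) * K) := by
  have hσ1 : (μ.withDensity f) univ ≤ 1 := by
    rw [withDensity_apply _ MeasurableSet.univ]
    calc ∫⁻ x in univ, f x ∂μ ≤ ∫⁻ _ in univ, 1 ∂μ := lintegral_mono (fun x => hf1 x)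
      _ = 1 := by simp
  have hσf : IsFiniteMeasure (μ.withDensity f) := ⟨hσ1.trans_lt ENNReal.one_lt_top⟩
  have hflc : ∀ t, Continuous (F t) := fun t => hF.comp (Continuous.prodMk continuous_const continuous_id)
  have hΦ1 : Continuous (fun p : (ℝ × ℝ) × (X × X) => F p.1.1 p.2.1) :=
    hF.comp (Continuous.prodMk (continuous_fst.comp continuous_fst) (continuous_fst.comp continuous_snd))
  have hΦ2 : Continuous (fun p : (ℝ × ℝ) × (X × X) => F p.1.2 p.2.2) :=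
    hF.comp (Continuous.prodMk (continuous_snd.comp continuous_fst) (continuous_snd.comp continuous_snd))
  have hΦc : Continuous (fun p : (ℝ × ℝ) × (X × X) => (F p.1.1 p.2.1, F p.1.2 p.2.2)) := Continuous.prodMk hΦ1 hΦ2
  set B : Set ((ℝ × ℝ) × (X × X)) := {p | (F p.1.1 p.2.1, F p.1.2 p.2.2) ∈ A} with hB
  have hBm : MeasurableSet B := hΦc.measurable hAm
  have hSqm : MeasurableSet Sq := measurableSet_Icc.prod measurableSet_Icc
  have hff : Measurable (fun z : X × X => f z.1 * f z.2) :=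
    (hfm.comp measurable_fst).mul (hfm.comp measurable_snd)
  have hprod : (μ.withDensity f).prod (μ.withDensity f) = (μ.prod μ).withDensity (fun z => f z.1 * f z.2) :=
    prod_withDensity hfm hfm
  set σ : Measure X := μ.withDensity f with hσ
  -- one pair of times
  have e2 : ∀ u ∈ Sq, (σ.prod σ) A ≤ ENNReal.ofReal (Real.exp 1) *
      ∫⁻ z, B.indicator (fun _ => (1 : ℝ≥0∞)) (u, z) ∂(σ.prod σ) := by
    intro u hu
    have hu1 : 0 ≤ u.1 ∧ u.1 ≤ 1 / 4 := hu.1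
    have hu2 : 0 ≤ u.2 ∧ u.2 ≤ 1 / 4 := hu.2
    have hmp : (μ.prod μ).map (Prod.map (F u.1) (F u.2)) = μ.prod μ := by
      rw [← Measure.map_prod_map μ μ (hflc u.1).measurable (hflc u.2).measurable, hinv, hinv]
    have hindm : Measurable (fun z : X × X => B.indicator (fun _ => (1 : ℝ≥0∞)) (u, z)) :=
      (measurable_const.indicator hBm).comp measurable_prodMk_left
    have hexp : ENNReal.ofReal (Real.exp (2 * |u.1|)) * ENNReal.ofReal (Real.exp (2 * |u.2|)) ≤ ENNReal.ofReal (Real.exp 1) := by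
      rw [← ENNReal.ofReal_mul (Real.exp_pos _).le, ← Real.exp_add]
      refine ENNReal.ofReal_le_ofReal (Real.exp_le_exp.2 ?_)
      rw [abs_of_nonneg hu1.1, abs_of_nonneg hu2.1]
      linarith [hu1.2, hu2.2]
    calc (σ.prod σ) A = ∫⁻ z, A.indicator (fun z => f z.1 * f z.2) z ∂(μ.prod μ) := by
          rw [hprod, withDensity_apply _ hAm, lintegral_indicator hAm]
      _ = ∫⁻ z, A.indicator (fun z => f z.1 * f z.2) z ∂((μ.prod μ).map (Prod.map (F u.1) (F u.2))) := by rw [hmp]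
      _ = ∫⁻ z, A.indicator (fun z => f z.1 * f z.2) (Prod.map (F u.1) (F u.2) z) ∂(μ.prod μ) :=
          lintegral_map (hff.indicator hAm) ((hflc u.1).measurable.prodMap (hflc u.2).measurable)
      _ ≤ ∫⁻ z, ENNReal.ofReal (Real.exp 1) * ((f z.1 * f z.2) * B.indicator (fun _ => (1 : ℝ≥0∞)) (u, z)) ∂(μ.prod μ) := by
          refine lintegral_mono fun z => ?_
          by_cases hz : (F u.1 z.1, F u.2 z.2) ∈ A
          · have i1 : Prod.map (F u.1) (F u.2) z ∈ A := hz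
            have i2 : (u, z) ∈ B := hz
            rw [indicator_of_mem i1, indicator_of_mem i2, mul_one]
            change f (F u.1 z.1) * f (F u.2 z.2) ≤ _
            calc f (F u.1 z.1) * f (F u.2 z.2)
                ≤ (ENNReal.ofReal (Real.exp (2 * |u.1|)) * f z.1) * (ENNReal.ofReal (Real.exp (2 * |u.2|)) * f z.2) :=
                  mul_le_mul' (hffl _ _) (hffl _ _)
              _ = (ENNReal.ofReal (Real.exp (2 * |u.1|)) * ENNReal.ofReal (Real.exp (2 * |u.2|))) * (f z.1 * f z.2) := by ring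
              _ ≤ ENNReal.ofReal (Real.exp 1) * (f z.1 * f z.2) := mul_le_mul' hexp le_rfl
          · have i1 : Prod.map (F u.1) (F u.2) z ∉ A := hz
            rw [indicator_of_notMem i1]
            exact zero_le
      _ = ENNReal.ofReal (Real.exp 1) * ∫⁻ z, ((f z.1 * f z.2) * B.indicator (fun _ => (1 : ℝ≥0∞)) (u, z)) ∂(μ.prod μ) :=
          lintegral_const_mul _ (hff.mul hindm)
      _ = ENNReal.ofReal (Real.exp 1) * ∫⁻ z, B.indicator (fun _ => (1 : ℝ≥0∞)) (u, z) ∂(σ.prod σ) := by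
          rw [hprod, lintegral_withDensity_eq_lintegral_mul _ hff hindm]
          rfl
  -- integrate over the square
  have e3 : ENNReal.ofReal (1 / 16) * (σ.prod σ) A ≤ ENNReal.ofReal (Real.exp 1) * K := by
    calc ENNReal.ofReal (1 / 16) * (σ.prod σ) A = ∫⁻ _ in Sq, (σ.prod σ) A ∂(volume : Measure (ℝ × ℝ)) := by
          rw [setLIntegral_const, EN2_vol, mul_comm]
      _ ≤ ∫⁻ u in Sq, ENNReal.ofReal (Real.exp 1) *
            (∫⁻ z, B.indicator (fun _ => (1 : ℝ≥0∞)) (u, z) ∂(σ.prod σ)) ∂(volume : Measure (ℝ × ℝ)) :=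
          setLIntegral_mono' hSqm e2
      _ = ENNReal.ofReal (Real.exp 1) * ∫⁻ u in Sq,
            (∫⁻ z, B.indicator (fun _ => (1 : ℝ≥0∞)) (u, z) ∂(σ.prod σ)) ∂(volume : Measure (ℝ × ℝ)) :=
          lintegral_const_mul _ (measurable_const.indicator hBm).lintegral_prod_right'
      _ = ENNReal.ofReal (Real.exp 1) * ∫⁻ z, (∫⁻ u in Sq,
            B.indicator (fun _ => (1 : ℝ≥0∞)) (u, z) ∂(volume : Measure (ℝ × ℝ))) ∂(σ.prod σ) := by
          rw [lintegral_lintegral_swap]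
          exact (measurable_const.indicator hBm).aemeasurable
      _ = ENNReal.ofReal (Real.exp 1) * ∫⁻ z, volume {u : ℝ × ℝ | u ∈ Sq ∧ (F u.1 z.1, F u.2 z.2) ∈ A} ∂(σ.prod σ) := by
          congr 1
          refine lintegral_congr fun z => ?_
          have hm : MeasurableSet {u : ℝ × ℝ | (F u.1 z.1, F u.2 z.2) ∈ A} :=
            (measurable_prodMk_right (y := z)) hBm
          have hEq : (fun u : ℝ × ℝ => B.indicator (fun _ => (1 : ℝ≥0∞)) (u, z)) =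
              {u : ℝ × ℝ | (F u.1 z.1, F u.2 z.2) ∈ A}.indicator (fun _ => (1 : ℝ≥0∞)) := rfl
          rw [hEq, lintegral_indicator hm, setLIntegral_const, one_mul, Measure.restrict_apply hm, inter_comm]
          rfl
      _ = ENNReal.ofReal (Real.exp 1) * ∫⁻ x, ∫⁻ y, volume {u : ℝ × ℝ | u ∈ Sq ∧ (F u.1 x, F u.2 y) ∈ A} ∂σ ∂σ := by
          rw [lintegral_prod]
          have hm2 : MeasurableSet {p : (X × X) × (ℝ × ℝ) | p.2 ∈ Sq ∧ (F p.2.1 p.1.1, F p.2.2 p.1.2) ∈ A} :=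
            (measurable_snd hSqm).inter (measurable_swap hBm)
          exact (measurable_measure_prodMk_left hm2).aemeasurable
      _ ≤ ENNReal.ofReal (Real.exp 1) * ∫⁻ _, K ∂σ := by
          gcongr with x
          exact hK x
      _ = ENNReal.ofReal (Real.exp 1) * (K * σ univ) := by rw [lintegral_const]
      _ ≤ ENNReal.ofReal (Real.exp 1) * (K * 1) := by gcongr
      _ = ENNReal.ofReal (Real.exp 1) * K := by rw [mul_one]
  calc (σ.prod σ) A = ENNReal.ofReal 16 * (ENNReal.ofReal (1 / 16) * (σ.prod σ) A) := by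
        rw [← mul_assoc, ← ENNReal.ofReal_mul (by norm_num)]
        norm_num
    _ ≤ ENNReal.ofReal 16 * (ENNReal.ofReal (Real.exp 1) * K) := by gcongr

theorem EN2_proof (h1 : ENR_stmt) (h2 : WGT_stmt) : EN2_stmt := by
  intro Γ μ 𝒢 r C v w hΓ hμ hinv hG hr hr1 hw hw1 hwv hbx
  obtain ⟨C', hC'⟩ := h1 Γ μ 𝒢 r C v w hΓ hμ hinv hG hr hr1 hw hw1 hwv hbx
  obtain ⟨hwm, hw01, hwfl, -⟩ := h2 Γ μ 𝒢 hΓ hμ hinv hG
  obtain ⟨hF, hcpr, -⟩ := EN.XFL_proof Γ
  obtain ⟨hcX, hTX, hSX⟩ := EN.XTX_proof EN.XFL_proof Γ hΓ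
  obtain ⟨hcM, hTM, hSM⟩ := EN.XTM_proof EN.XFL_proof Γ hΓ
  have := hSX
  have := hSM
  have hfm : Measurable (fun x => ENNReal.ofReal (wt Γ 𝒢 x)) := hwm.ennreal_ofReal
  have hf1 : ∀ x, ENNReal.ofReal (wt Γ 𝒢 x) ≤ 1 := fun x => ENNReal.ofReal_le_one.2 (hw01 x).2
  have hffl : ∀ t x, ENNReal.ofReal (wt Γ 𝒢 (fl Γ t x)) ≤ ENNReal.ofReal (Real.exp (2 * |t|)) * ENNReal.ofReal (wt Γ 𝒢 x) := fun t x => by
    rw [← ENNReal.ofReal_mul (Real.exp_pos _).le]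
    exact ENNReal.ofReal_le_ofReal (hwfl t x)
  have hσf : IsFiniteMeasure (wm Γ μ 𝒢) := by
    refine ⟨?_⟩
    unfold wm
    rw [withDensity_apply _ MeasurableSet.univ]
    calc ∫⁻ x in univ, ENNReal.ofReal (wt Γ 𝒢 x) ∂μ ≤ ∫⁻ _ in univ, 1 ∂μ := lintegral_mono (fun x => hf1 x)
      _ = 1 := by simp
      _ < ⊤ := ENNReal.one_lt_top
  refine ⟨16 * (Real.exp 1 * C'), fun ρ hρ hρ1 => ?_⟩
  have hAm : MeasurableSet {p : XG Γ × XG Γ | DX Γ ρ p.1 p.2} := (EN2_openX Γ ρ).measurableSet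
  -- to `X`
  have e1 : (((wm Γ μ 𝒢).map (pr Γ)).prod ((wm Γ μ 𝒢).map (pr Γ))) (DM Γ ρ) =
      ((wm Γ μ 𝒢).prod (wm Γ μ 𝒢)) {p : XG Γ × XG Γ | DX Γ ρ p.1 p.2} := by
    rw [Measure.map_prod_map _ _ hcpr.measurable hcpr.measurable,
      Measure.map_apply (hcpr.measurable.prodMap hcpr.measurable) (EN2_openM Γ ρ).measurableSet]
    congr 1
    ext ⟨x, y⟩
    exact EN2_mem Γ ρ x y
  rw [e1]
  have e2 := EN2_core (fl Γ) hF.cont μ hinv (fun x => ENNReal.ofReal (wt Γ 𝒢 x)) hfm hf1 hffl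
    {p : XG Γ × XG Γ | DX Γ ρ p.1 p.2} hAm (ENNReal.ofReal (C' * ρ ^ (1 + w))) (fun x => hC' x ρ hρ hρ1)
  refine e2.trans (le_of_eq ?_)
  rw [← ENNReal.ofReal_mul (Real.exp_pos _).le, ← ENNReal.ofReal_mul (by norm_num)]
  congr 1
  ring

end Pool.Agent.LL
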